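import Pool.Agent.Z72.SF.All

set_option autoImplicit false

/-!
The shifted moments of the Riemann zeta function of every order `2k`, compared with the full
prediction of the recipe, when up to four of the shifts `α_j` are fixed (and distinct) and all the
other shifts vary in `[0, U]`, `T ^ (1/3) ≤ U ≤ T`.
-/

namespace Pool.Agent.Results.MP_fa2474_nt.FourFixedShifts

open Complex MeasureTheory Filter

noncomputable section

variable {k : ℕ}

/-- The divisor function `τ_l(n)`: the sum over `d_1 d_2 ⋯ d_k = n` of `∏ j, d_j ^ l_j`. -/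
def tau (l : Fin k → ℂ) (n : ℕ) : ℂ :=
  ∑ d ∈ Nat.finMulAntidiag k n, ∏ j, (d j : ℂ) ^ (l j)

/-- The Euler factor of `F(s; a, b)` at the prime `p`. -/
def localFactor (s : ℂ) (a b : Fin k → ℝ) (p : ℕ) : ℂ :=
  (∏ j, ∏ l, (1 - (p : ℂ) ^ (-(2 * s + I * a j - I * b l)))) *
    ∑' m : ℕ, tau (fun j => I * b j) (p ^ m) * tau (fun j => -(I * a j)) (p ^ m) *
      (p : ℂ) ^ (-(2 * m * s))

/-- The arithmetic factor `F(s; a, b)`, an Euler product. -/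
def arithF (s : ℂ) (a b : Fin k → ℝ) : ℂ := ∏' p : Nat.Primes, localFactor s a b p

/-- `ζ_{(a, b)}(s)`, through `F(s; a, b)` and the product of `k ^ 2` zeta functions. -/
def zetaAB (s : ℂ) (a b : Fin k → ℝ) : ℂ :=
  arithF s a b * ∏ j, ∏ l, riemannZeta (2 * s + I * a j - I * b l)

/-- The factor `χ` of the functional equation `ζ(s) = χ(s) ζ(1 - s)`. -/
def chi (s : ℂ) : ℂ := (Real.pi : ℂ) ^ (s - 1 / 2) * Gamma ((1 - s) / 2) / Gamma (s / 2)

/-- `Z_{α, β}(t)`, where `γ = (α, β)` is indexed by `Fin k ⊕ Fin k`. -/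
def Z (γ : Fin k ⊕ Fin k → ℝ) (t : ℝ) : ℂ :=
  ∏ j : Fin k, riemannZeta (1 / 2 + I * (t + γ (Sum.inl j))) *
    riemannZeta (1 / 2 - I * (t + γ (Sum.inr j)))

/-- `G_γ(π)`, where `π(γ)` has the coordinates `γ (π i)`. -/
def G (γ : Fin k ⊕ Fin k → ℝ) (t : ℝ) (π : Equiv.Perm (Fin k ⊕ Fin k)) : ℂ :=
  (∏ j : Fin k, if (π (Sum.inl j)).isRight then chi (1 / 2 - I * t - I * γ (π (Sum.inl j))) else 1) *
  ∏ j : Fin k, if (π (Sum.inr j)).isLeft then chi (1 / 2 + I * t + I * γ (π (Sum.inr j))) else 1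

/-- `Q_k(t; α, β)`: the summand depends only on the class of `π` in `S_{2k} / (S_k × S_k)`, so the
sum over the classes is the sum over all `π`, divided by `(k!) ^ 2`. -/
def Q (γ : Fin k ⊕ Fin k → ℝ) (t : ℝ) : ℂ :=
  ((Nat.factorial k : ℂ) ^ 2)⁻¹ * ∑ π : Equiv.Perm (Fin k ⊕ Fin k),
    G γ t π * zetaAB (1 / 2) (fun j => γ (π (Sum.inl j))) (fun j => γ (π (Sum.inr j)))

open Pool.Agent.TH612.CF in
lemma zetaAB_eq (a b : Fin k → ℝ) :
    zetaAB (1 / 2) a b = zab (fun j => (a j : ℂ)) (fun j => (b j : ℂ)) := by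
  unfold zetaAB zab arithF FH
  congr 1
  · refine tprod_congr fun p => ?_
    unfold localFactor lh lt
    congr 1
    · refine Finset.prod_congr rfl fun j _ => Finset.prod_congr rfl fun l _ => ?_
      congr 2
      ring
    · refine tsum_congr fun m => ?_
      have hp : ((p : ℕ) : ℂ) ≠ 0 := by exact_mod_cast p.2.ne_zero
      have e : ((p : ℕ) : ℂ) ^ (-(2 * (m : ℂ) * (1 / 2))) = (((p : ℕ) : ℂ) ^ m)⁻¹ := by
        rw [← Complex.cpow_natCast, ← Complex.cpow_neg]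
        congr 1; ring
      rw [e]
      rfl
  · refine Finset.prod_congr rfl fun j _ => Finset.prod_congr rfl fun l _ => ?_
    congr 1
    ring

open Pool.Agent.TH612.CF in
lemma Q_eq (γ : Fin k ⊕ Fin k → ℝ) (t : ℝ) :
    Q γ t = ((Nat.factorial k : ℂ) ^ 2)⁻¹ * Qs t (fun i => (γ i : ℂ)) := by
  unfold Q Qs Rt
  congr 1
  refine Finset.sum_congr rfl fun π _ => ?_
  rw [zetaAB_eq]
  rfl

/-- The shift vector: the shifts `α_j`, `j ∈ F`, are fixed, the other ones are those of `ξ`. -/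
def mix (F : Finset (Fin k)) (α : Fin k → ℝ) (ξ : Fin k ⊕ Fin k → ℝ) : Fin k ⊕ Fin k → ℝ :=
  Sum.elim (fun j => if j ∈ F then α j else ξ (Sum.inl j)) (fun l => ξ (Sum.inr l))

/-- Let `F` be a set of at most four of the indices `1, …, k` and `e = max 1 ((|F| + 1) / 3)`. For every
`ε > 0` there is `δ > 0` such that for all real `α_j`, `j ∈ F`, which are distinct, there is `T₀` such
that for all `T ≥ T₀`, `T ^ (1/3) ≤ U ≤ T` and `0 ≤ S ≤ T`: for all `ξ` in the cube `[0, U] ^ (2k)` outside a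
set of measure at most `U ^ (2k) T ^ (-δ)`, the shift vector `γ = (α, β)` with the fixed `α_j` for `j ∈ F` and the
coordinates of `ξ` in all other places satisfies
`|∫_0^S (Z_{α, β}(t) - Q_k(t; α, β)) dt| ≤ T ^ ((1 + e) / 2 + ε) U ^ (-1/2)`. -/
theorem result (k : ℕ) (hk : 1 ≤ k) (F : Finset (Fin k)) (hF : F.card ≤ 4) (ε : ℝ) (hε : 0 < ε) :
    (∀ γ : Fin k ⊕ Fin k → ℝ, Continuous fun t : ℝ => Z γ t - Q γ t) ∧
    ∃ δ : ℝ, 0 < δ ∧ ∀ α : Fin k → ℝ, (∀ i ∈ F, ∀ j ∈ F, i ≠ j → α i ≠ α j) → ∃ T₀ : ℝ,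
      ∀ T U S : ℝ, T₀ ≤ T → T ^ (1 / 3 : ℝ) ≤ U → U ≤ T → 0 ≤ S → S ≤ T →
        volume {ξ : Fin k ⊕ Fin k → ℝ | (∀ i, 0 ≤ ξ i ∧ ξ i ≤ U) ∧
          T ^ ((1 + max 1 (((F.card : ℝ) + 1) / 3)) / 2 + ε) * U ^ (-(1 / 2) : ℝ) <
            ‖∫ t in (0:ℝ)..S, (Z (mix F α ξ) t - Q (mix F α ξ) t)‖} ≤
        ENNReal.ofReal (U ^ (2 * k) * T ^ (-δ)) := by
  constructor
  · intro γ
    have h := (Pool.Agent.TH612.GS.Zg_cont γ).sub
      ((continuous_const (y := ((Nat.factorial k : ℂ) ^ 2)⁻¹)).mul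
        (Pool.Agent.TH612.GS.Qs_cont γ))
    refine h.congr fun t => ?_
    rw [Q_eq]
    rfl
  · obtain ⟨δ, hδ, h⟩ := Pool.Agent.Z72.SF.final k F ε hk hF hε
    refine ⟨δ, hδ, fun α hα => ?_⟩
    obtain ⟨T₀, h2⟩ := h α hα
    refine ⟨T₀, fun T U S hT hTU hUT hS hST => ?_⟩
    have e : {ξ : Fin k ⊕ Fin k → ℝ | (∀ i, 0 ≤ ξ i ∧ ξ i ≤ U) ∧
          T ^ ((1 + max 1 (((F.card : ℝ) + 1) / 3)) / 2 + ε) * U ^ (-(1 / 2) : ℝ) <
            ‖∫ t in (0:ℝ)..S, (Z (mix F α ξ) t - Q (mix F α ξ) t)‖} =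
        Pool.Agent.Z72.SF.BadF F α U S
          (T ^ ((1 + Pool.Agent.Z72.SF.ee F.card) / 2 + ε) * U ^ (-(1 / 2) : ℝ)) := by
      ext ξ
      unfold Pool.Agent.Z72.SF.BadF Pool.Agent.TH612.GS.DD Pool.Agent.Z72.SF.ee
      simp only [Set.mem_ofPred_eq, Q_eq]
      rfl
    rw [e, Pool.Agent.TH612.GS.vol_cube (T := U) fun ξ hξ => hξ.1]
    exact h2 T U S hT hTU hUT hS hST

end

end Pool.Agent.Results.MP_fa2474_nt.FourFixedShifts
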