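import Pool.Agent.Z72.SH.All

set_option autoImplicit false

/-!
The shifted moments of the Riemann zeta function of every order `2k`, compared with the full
prediction of the recipe, for all shift vectors in the cube `[0, U] ^ (2k)`, `T ^ κ ≤ U ≤ T`, outside
few unit cubes. Here `κ` is any number larger than `(2k - 3) / (6k - 6)`: `1/6` for the fourth moment,
`1/4` for the sixth moment, less than `1/3` for all `k`.
-/

namespace Pool.Agent.Results.MP_fa2474_nt.ShiftsInShortWindows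

open Complex MeasureTheory Filter

noncomputable section

variable {k : ℕ}

/-- The divisor function `τ_l(n)`: the sum over `d_1 d_2 ⋯ d_k = n` of `∏ j, d_j ^ l_j`. -/
def tau (l : Fin k → ℂ) (n : ℕ) : ℂ :=
  ∑ d ∈ Nat.finMulAntidiag k n, ∏ j, (d j : ℂ) ^ (l j)

/-- The Euler factor of `F(s; a, b)` at the prime `p`. -/
def localFactor (s : ℂ) (a b : Fin k → ℝ) (p : ℕ) : ℂ :=
  (∏ j, ∏ l, (1 - (p : ℂ) ^ (-(2 * s + I * a j - I * b l)))) *
    ∑' m : ℕ, tau (fun j => I * b j) (p ^ m) * tau (fun j => -(I * a j)) (p ^ m) *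
      (p : ℂ) ^ (-(2 * m * s))

/-- The arithmetic factor `F(s; a, b)`, an Euler product. -/
def arithF (s : ℂ) (a b : Fin k → ℝ) : ℂ := ∏' p : Nat.Primes, localFactor s a b p

/-- `ζ_{(a, b)}(s)`, through `F(s; a, b)` and the product of `k ^ 2` zeta functions. -/
def zetaAB (s : ℂ) (a b : Fin k → ℝ) : ℂ :=
  arithF s a b * ∏ j, ∏ l, riemannZeta (2 * s + I * a j - I * b l)

/-- The factor `χ` of the functional equation `ζ(s) = χ(s) ζ(1 - s)`. -/
def chi (s : ℂ) : ℂ := (Real.pi : ℂ) ^ (s - 1 / 2) * Gamma ((1 - s) / 2) / Gamma (s / 2)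

/-- `Z_{α, β}(t)`, where `γ = (α, β)` is indexed by `Fin k ⊕ Fin k`. -/
def Z (γ : Fin k ⊕ Fin k → ℝ) (t : ℝ) : ℂ :=
  ∏ j : Fin k, riemannZeta (1 / 2 + I * (t + γ (Sum.inl j))) *
    riemannZeta (1 / 2 - I * (t + γ (Sum.inr j)))

/-- `G_γ(π)`, where `π(γ)` has the coordinates `γ (π i)`. -/
def G (γ : Fin k ⊕ Fin k → ℝ) (t : ℝ) (π : Equiv.Perm (Fin k ⊕ Fin k)) : ℂ :=
  (∏ j : Fin k, if (π (Sum.inl j)).isRight then chi (1 / 2 - I * t - I * γ (π (Sum.inl j))) else 1) *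
  ∏ j : Fin k, if (π (Sum.inr j)).isLeft then chi (1 / 2 + I * t + I * γ (π (Sum.inr j))) else 1

/-- `Q_k(t; α, β)`: the summand depends only on the class of `π` in `S_{2k} / (S_k × S_k)`, so the
sum over the classes is the sum over all `π`, divided by `(k!) ^ 2`. -/
def Q (γ : Fin k ⊕ Fin k → ℝ) (t : ℝ) : ℂ :=
  ((Nat.factorial k : ℂ) ^ 2)⁻¹ * ∑ π : Equiv.Perm (Fin k ⊕ Fin k),
    G γ t π * zetaAB (1 / 2) (fun j => γ (π (Sum.inl j))) (fun j => γ (π (Sum.inr j)))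

open Pool.Agent.TH612.CF in
lemma zetaAB_eq (a b : Fin k → ℝ) :
    zetaAB (1 / 2) a b = zab (fun j => (a j : ℂ)) (fun j => (b j : ℂ)) := by
  unfold zetaAB zab arithF FH
  congr 1
  · refine tprod_congr fun p => ?_
    unfold localFactor lh lt
    congr 1
    · refine Finset.prod_congr rfl fun j _ => Finset.prod_congr rfl fun l _ => ?_
      congr 2
      ring
    · refine tsum_congr fun m => ?_
      have hp : ((p : ℕ) : ℂ) ≠ 0 := by exact_mod_cast p.2.ne_zero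
      have e : ((p : ℕ) : ℂ) ^ (-(2 * (m : ℂ) * (1 / 2))) = (((p : ℕ) : ℂ) ^ m)⁻¹ := by
        rw [← Complex.cpow_natCast, ← Complex.cpow_neg]
        congr 1; ring
      rw [e]
      rfl
  · refine Finset.prod_congr rfl fun j _ => Finset.prod_congr rfl fun l _ => ?_
    congr 1
    ring

open Pool.Agent.TH612.CF in
lemma Q_eq (γ : Fin k ⊕ Fin k → ℝ) (t : ℝ) :
    Q γ t = ((Nat.factorial k : ℂ) ^ 2)⁻¹ * Qs t (fun i => (γ i : ℂ)) := by
  unfold Q Qs Rt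
  congr 1
  refine Finset.sum_congr rfl fun π _ => ?_
  rw [zetaAB_eq]
  rfl

/-- For every `k ≥ 2` and every `κ > (2k - 3) / (6k - 6)` there are `δ > 0` and `T₀` such that for all
`T ≥ T₀` and `T ^ κ ≤ U ≤ T` there is a set `E` of at most `U ^ (2k) T ^ (-δ)` integer points such that
every `γ = (α, β)` in the cube `[0, U] ^ (2k)` which is not in one of the unit cubes with lowest corner in `E`
has coordinates at distance at least `4` from each other and satisfies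
`|∫_0^S (Z_{α, β}(t) - Q_k(t; α, β)) dt| ≤ T ^ (1 - δ)` for all `0 ≤ S ≤ T`. -/
theorem result (k : ℕ) (hk : 2 ≤ k) (κ : ℝ) (hκ : (2 * k - 3) / (6 * k - 6) < κ) :
    (∀ γ : Fin k ⊕ Fin k → ℝ, Continuous fun t : ℝ => Z γ t - Q γ t) ∧
    ∃ δ : ℝ, 0 < δ ∧ ∃ T₀ : ℝ, ∀ T U : ℝ, T₀ ≤ T → T ^ κ ≤ U → U ≤ T →
      ∃ E : Finset (Fin k ⊕ Fin k → ℤ), (E.card : ℝ) ≤ U ^ (2 * k) * T ^ (-δ) ∧
        ∀ γ : Fin k ⊕ Fin k → ℝ, (∀ i, 0 ≤ γ i ∧ γ i ≤ U) → (fun i => ⌊γ i⌋) ∉ E →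
          (∀ i j, i ≠ j → 4 ≤ |γ i - γ j|) ∧
          ∀ S : ℝ, 0 ≤ S → S ≤ T → ‖∫ t in (0:ℝ)..S, (Z γ t - Q γ t)‖ ≤ T ^ (1 - δ) := by
  constructor
  · intro γ
    have h := (Pool.Agent.TH612.GS.Zg_cont γ).sub
      ((continuous_const (y := ((Nat.factorial k : ℂ) ^ 2)⁻¹)).mul
        (Pool.Agent.TH612.GS.Qs_cont γ))
    refine h.congr fun t => ?_
    rw [Q_eq]
    rfl
  · obtain ⟨δ, T₀, hδ, h⟩ := Pool.Agent.Z72.SH.final k κ hk hκ
    refine ⟨δ, hδ, T₀, fun T U hT hTU hUT => ?_⟩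
    obtain ⟨E, hE, h2⟩ := h T U hT hTU hUT
    refine ⟨E, hE, fun γ hγ hγE => ?_⟩
    obtain ⟨h3, h4⟩ := h2 γ hγ hγE
    refine ⟨h3, fun S hS hST => ?_⟩
    have h5 := h4 S hS hST
    unfold Pool.Agent.TH612.GS.DD at h5
    simp only [Q_eq]
    exact h5

end

end Pool.Agent.Results.MP_fa2474_nt.ShiftsInShortWindows
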