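import Pool.Agent.Z72.SR.All

set_option autoImplicit false

/-!
The shifted moments of the Riemann zeta function of every order `2k`, integrated over the regular times
of `[0, T]` (all times up to a set of measure `T ^ (1 - δ)`), compared with the full prediction of the
recipe, when up to three of the shifts `α_j` are fixed (and distinct) and all the other shifts vary in
`[0, U]`, `T ^ κ ≤ U ≤ T`, for every `κ > 0`.
-/

namespace Pool.Agent.Results.MP_fa2474_nt.SmallPowerWindows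

open Complex MeasureTheory Filter

noncomputable section

variable {k : ℕ}

/-- The divisor function `τ_l(n)`: the sum over `d_1 d_2 ⋯ d_k = n` of `∏ j, d_j ^ l_j`. -/
def tau (l : Fin k → ℂ) (n : ℕ) : ℂ :=
  ∑ d ∈ Nat.finMulAntidiag k n, ∏ j, (d j : ℂ) ^ (l j)

/-- The Euler factor of `F(s; a, b)` at the prime `p`. -/
def localFactor (s : ℂ) (a b : Fin k → ℝ) (p : ℕ) : ℂ :=
  (∏ j, ∏ l, (1 - (p : ℂ) ^ (-(2 * s + I * a j - I * b l)))) *
    ∑' m : ℕ, tau (fun j => I * b j) (p ^ m) * tau (fun j => -(I * a j)) (p ^ m) *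
      (p : ℂ) ^ (-(2 * m * s))

/-- The arithmetic factor `F(s; a, b)`, an Euler product. -/
def arithF (s : ℂ) (a b : Fin k → ℝ) : ℂ := ∏' p : Nat.Primes, localFactor s a b p

/-- `ζ_{(a, b)}(s)`, through `F(s; a, b)` and the product of `k ^ 2` zeta functions. -/
def zetaAB (s : ℂ) (a b : Fin k → ℝ) : ℂ :=
  arithF s a b * ∏ j, ∏ l, riemannZeta (2 * s + I * a j - I * b l)

/-- The factor `χ` of the functional equation `ζ(s) = χ(s) ζ(1 - s)`. -/
def chi (s : ℂ) : ℂ := (Real.pi : ℂ) ^ (s - 1 / 2) * Gamma ((1 - s) / 2) / Gamma (s / 2)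

/-- `Z_{α, β}(t)`, where `γ = (α, β)` is indexed by `Fin k ⊕ Fin k`. -/
def Z (γ : Fin k ⊕ Fin k → ℝ) (t : ℝ) : ℂ :=
  ∏ j : Fin k, riemannZeta (1 / 2 + I * (t + γ (Sum.inl j))) *
    riemannZeta (1 / 2 - I * (t + γ (Sum.inr j)))

/-- `G_γ(π)`, where `π(γ)` has the coordinates `γ (π i)`. -/
def G (γ : Fin k ⊕ Fin k → ℝ) (t : ℝ) (π : Equiv.Perm (Fin k ⊕ Fin k)) : ℂ :=
  (∏ j : Fin k, if (π (Sum.inl j)).isRight then chi (1 / 2 - I * t - I * γ (π (Sum.inl j))) else 1) *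
  ∏ j : Fin k, if (π (Sum.inr j)).isLeft then chi (1 / 2 + I * t + I * γ (π (Sum.inr j))) else 1

/-- `Q_k(t; α, β)`: the summand depends only on the class of `π` in `S_{2k} / (S_k × S_k)`, so the
sum over the classes is the sum over all `π`, divided by `(k!) ^ 2`. -/
def Q (γ : Fin k ⊕ Fin k → ℝ) (t : ℝ) : ℂ :=
  ((Nat.factorial k : ℂ) ^ 2)⁻¹ * ∑ π : Equiv.Perm (Fin k ⊕ Fin k),
    G γ t π * zetaAB (1 / 2) (fun j => γ (π (Sum.inl j))) (fun j => γ (π (Sum.inr j)))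

open Pool.Agent.TH612.CF in
lemma zetaAB_eq (a b : Fin k → ℝ) :
    zetaAB (1 / 2) a b = zab (fun j => (a j : ℂ)) (fun j => (b j : ℂ)) := by
  unfold zetaAB zab arithF FH
  congr 1
  · refine tprod_congr fun p => ?_
    unfold localFactor lh lt
    congr 1
    · refine Finset.prod_congr rfl fun j _ => Finset.prod_congr rfl fun l _ => ?_
      congr 2
      ring
    · refine tsum_congr fun m => ?_
      have hp : ((p : ℕ) : ℂ) ≠ 0 := by exact_mod_cast p.2.ne_zero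
      have e : ((p : ℕ) : ℂ) ^ (-(2 * (m : ℂ) * (1 / 2))) = (((p : ℕ) : ℂ) ^ m)⁻¹ := by
        rw [← Complex.cpow_natCast, ← Complex.cpow_neg]
        congr 1; ring
      rw [e]
      rfl
  · refine Finset.prod_congr rfl fun j _ => Finset.prod_congr rfl fun l _ => ?_
    congr 1
    ring

open Pool.Agent.TH612.CF in
lemma Q_eq (γ : Fin k ⊕ Fin k → ℝ) (t : ℝ) :
    Q γ t = ((Nat.factorial k : ℂ) ^ 2)⁻¹ * Qs t (fun i => (γ i : ℂ)) := by
  unfold Q Qs Rt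
  congr 1
  refine Finset.sum_congr rfl fun π _ => ?_
  rw [zetaAB_eq]
  rfl

/-- The shift vector: the shifts `α_j`, `j ∈ F`, are fixed, the other ones are those of `ξ`. -/
def mix (F : Finset (Fin k)) (α : Fin k → ℝ) (ξ : Fin k ⊕ Fin k → ℝ) : Fin k ⊕ Fin k → ℝ :=
  Sum.elim (fun j => if j ∈ F then α j else ξ (Sum.inl j)) (fun l => ξ (Sum.inr l))

/-- The regular times `t` of `[0, T]`: `|ζ(1/2 + i(t + α_j))| ≤ T ^ η` for the fixed shifts `α_j`, and the mean of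
`|ζ(1/2 + iu)|²` over every interval `[t, t + U]` with `T ^ κ ≤ U ≤ T` is at most `T ^ η`. -/
def regular (F : Finset (Fin k)) (α : Fin k → ℝ) (κ η T : ℝ) : Set ℝ :=
  {t | 0 ≤ t ∧ t ≤ T ∧ (∀ j ∈ F, ‖riemannZeta (1 / 2 + I * (t + α j))‖ ≤ T ^ η) ∧
    ∀ U : ℝ, T ^ κ ≤ U → U ≤ T → ∫ u in t..(t + U), ‖riemannZeta (1 / 2 + I * u)‖ ^ 2 ≤ T ^ η * U}

lemma regular_eq (F : Finset (Fin k)) (α : Fin k → ℝ) (κ η T : ℝ) :
    regular F α κ η T = Pool.Agent.Z72.SR.Rg F α κ η T := by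
  have hz : ∀ u : ℝ, Pool.Agent.TH612.GS.z u = riemannZeta (1 / 2 + I * u) := fun u => rfl
  unfold regular Pool.Agent.Z72.SR.Rg
  ext t
  simp only [Set.mem_ofPred_eq]
  have e1 : ∀ j, Pool.Agent.TH612.GS.z (t + α j) = riemannZeta (1 / 2 + I * (t + α j)) := by
    intro j
    rw [hz]
    push_cast
    rfl
  have e2 : ∀ U : ℝ, ∫ c in (0:ℝ)..U, ‖Pool.Agent.TH612.GS.z (t + c)‖ ^ 2 =
      ∫ u in t..(t + U), ‖riemannZeta (1 / 2 + I * u)‖ ^ 2 := by
    intro U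
    rw [intervalIntegral.integral_comp_add_left (fun u => ‖Pool.Agent.TH612.GS.z u‖ ^ 2) t, add_zero]
    rfl
  simp only [e1, e2]

open Pool.Agent.TH612.CF in
lemma DR_eq (R : Set ℝ) (hR : MeasurableSet R) {S : ℝ} (hS : 0 ≤ S) (γ : Fin k ⊕ Fin k → ℝ) :
    Pool.Agent.Z72.SR.DR R S γ = (∫ t in R ∩ Set.Icc 0 S, Z γ t) - ∫ t in (0:ℝ)..S, Q γ t := by
  have hZ : Continuous fun t => Zg γ t := Pool.Agent.TH612.GS.Zg_cont γ
  have hQ : Continuous fun t : ℝ => ((Nat.factorial k : ℂ) ^ 2)⁻¹ * Qs t (fun i => (γ i : ℂ)) :=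
    (continuous_const (y := ((Nat.factorial k : ℂ) ^ 2)⁻¹)).mul (Pool.Agent.TH612.GS.Qs_cont γ)
  have e1 : Pool.Agent.TH612.GS.DD S γ = (∫ t in (0:ℝ)..S, Zg γ t) - ∫ t in (0:ℝ)..S, Q γ t := by
    unfold Pool.Agent.TH612.GS.DD
    rw [intervalIntegral.integral_sub (hZ.intervalIntegrable _ _) (hQ.intervalIntegrable _ _)]
    congr 1
    exact intervalIntegral.integral_congr fun t _ => (Q_eq γ t).symm
  have e2 : (∫ t in (0:ℝ)..S, Zg γ t) = (∫ t in (0:ℝ)..S, R.indicator (fun _ => (1:ℂ)) t * Zg γ t) +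
      ∫ t in (0:ℝ)..S, Rᶜ.indicator (fun _ => (1:ℂ)) t * Zg γ t := by
    rw [← intervalIntegral.integral_add (Pool.Agent.Z72.SR.ind_int hR hZ 0 S)
      (Pool.Agent.Z72.SR.ind_int hR.compl hZ 0 S)]
    exact intervalIntegral.integral_congr fun t _ => (Pool.Agent.Z72.SR.ind_add R _ t).symm
  have e3 : (∫ t in (0:ℝ)..S, R.indicator (fun _ => (1:ℂ)) t * Zg γ t) = ∫ t in R ∩ Set.Icc 0 S, Z γ t := by
    have h : ∀ t, R.indicator (fun _ => (1:ℂ)) t * Zg γ t = R.indicator (fun t => Z γ t) t := by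
      intro t
      by_cases ht : t ∈ R
      · rw [Set.indicator_of_mem ht, Set.indicator_of_mem ht, one_mul]; rfl
      · rw [Set.indicator_of_notMem ht, Set.indicator_of_notMem ht, zero_mul]
    simp only [h]
    rw [intervalIntegral.integral_of_le hS, ← integral_Icc_eq_integral_Ioc, setIntegral_indicator hR,
      Set.inter_comm]
  unfold Pool.Agent.Z72.SR.DR
  rw [e1, e2, e3]
  ring

/-- Let `F` be a set of at most three of the indices `1, …, k`, let `0 < κ ≤ 1` and `0 < η ≤ κ / (8(k + 1))`. There is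
`δ > 0` such that for all real `α_j`, `j ∈ F`, which are distinct, there is `T₀` such that for all `T ≥ T₀`:
the set `R` of the regular times of `[0, T]` is closed, its complement in `[0, T]` has measure at most `T ^ (1 - δ)`,
and for all `T ^ κ ≤ U ≤ T` and `0 ≤ S ≤ T`: for all `ξ` in the cube `[0, U] ^ (2k)` outside a set of measure at most
`U ^ (2k) T ^ (-δ)`, the shift vector `γ = (α, β)` with the fixed `α_j` for `j ∈ F` and the coordinates of `ξ` in all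
other places satisfies `|∫_{R ∩ [0, S]} Z_{α, β}(t) dt - ∫_0^S Q_k(t; α, β) dt| ≤ T ^ (1 - δ)`. -/
theorem result (k : ℕ) (hk : 1 ≤ k) (F : Finset (Fin k)) (hF : F.card ≤ 3) (κ η : ℝ) (hκ : 0 < κ) (hκ1 : κ ≤ 1)
    (hη : 0 < η) (hη1 : 8 * (k + 1) * η ≤ κ) :
    (∀ γ : Fin k ⊕ Fin k → ℝ, (Continuous fun t : ℝ => Z γ t) ∧ Continuous fun t : ℝ => Q γ t) ∧
    ∃ δ : ℝ, 0 < δ ∧ ∀ α : Fin k → ℝ, (∀ i ∈ F, ∀ j ∈ F, i ≠ j → α i ≠ α j) → ∃ T₀ : ℝ, ∀ T : ℝ, T₀ ≤ T →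
      IsClosed (regular F α κ η T) ∧
      volume (Set.Icc 0 T \ regular F α κ η T) ≤ ENNReal.ofReal (T ^ (1 - δ)) ∧
      ∀ U S : ℝ, T ^ κ ≤ U → U ≤ T → 0 ≤ S → S ≤ T →
        volume {ξ : Fin k ⊕ Fin k → ℝ | (∀ i, 0 ≤ ξ i ∧ ξ i ≤ U) ∧
          T ^ (1 - δ) < ‖(∫ t in regular F α κ η T ∩ Set.Icc 0 S, Z (mix F α ξ) t) -
            ∫ t in (0:ℝ)..S, Q (mix F α ξ) t‖} ≤
        ENNReal.ofReal (U ^ (2 * k) * T ^ (-δ)) := by
  constructor
  · intro γ
    refine ⟨(Pool.Agent.TH612.GS.Zg_cont γ).congr fun t => rfl, ?_⟩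
    have h := (continuous_const (y := ((Nat.factorial k : ℂ) ^ 2)⁻¹)).mul (Pool.Agent.TH612.GS.Qs_cont γ)
    refine h.congr fun t => ?_
    rw [Q_eq]
    rfl
  · obtain ⟨δ, hδ, h⟩ := Pool.Agent.Z72.SR.final k F κ η hk hF hκ hκ1 hη hη1
    refine ⟨δ, hδ, fun α hα => ?_⟩
    obtain ⟨T₀, h2⟩ := h α hα
    refine ⟨T₀, fun T hT => ?_⟩
    have hcl : IsClosed (regular F α κ η T) := by
      rw [regular_eq]
      exact Pool.Agent.Z72.SR.Rg_closed F α κ η T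
    obtain ⟨h3, h4⟩ := h2 T hT
    refine ⟨hcl, by rw [regular_eq]; exact h3, fun U S hTU hUT hS hST => ?_⟩
    have e : {ξ : Fin k ⊕ Fin k → ℝ | (∀ i, 0 ≤ ξ i ∧ ξ i ≤ U) ∧
          T ^ (1 - δ) < ‖(∫ t in regular F α κ η T ∩ Set.Icc 0 S, Z (mix F α ξ) t) -
            ∫ t in (0:ℝ)..S, Q (mix F α ξ) t‖} =
        Pool.Agent.Z72.SR.BadR F α (Pool.Agent.Z72.SR.Rg F α κ η T) U S (T ^ (1 - δ)) := by
      ext ξ
      unfold Pool.Agent.Z72.SR.BadR
      rw [← regular_eq]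
      simp only [Set.mem_ofPred_eq]
      rw [DR_eq _ hcl.measurableSet hS]
      rfl
    rw [e, Pool.Agent.TH612.GS.vol_cube (T := U) fun ξ hξ => hξ.1]
    exact h4 U S hTU hUT hS hST

end

end Pool.Agent.Results.MP_fa2474_nt.SmallPowerWindows
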