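import Pool.Agent.Z72.SQ.All

set_option autoImplicit false

/-!
The shifted moments of the Riemann zeta function of every order `2k`, compared with the full
prediction of the recipe, with the remainder `T ^ (1/2 + ε)` of the original conjecture, for all
shift vectors in the cube `[0, T] ^ (2k)` outside few unit cubes; and, more generally, with the
remainder `T ^ (1 + ε) U ^ (-1/2)` for the shift vectors in `[0, U] ^ (2k)`, `T ^ (1/3) ≤ U ≤ T`.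
-/

namespace Pool.Agent.Results.MP_fa2474_nt.SquareRootRemainder

open Complex MeasureTheory Filter

noncomputable section

variable {k : ℕ}

/-- The divisor function `τ_l(n)`: the sum over `d_1 d_2 ⋯ d_k = n` of `∏ j, d_j ^ l_j`. -/
def tau (l : Fin k → ℂ) (n : ℕ) : ℂ :=
  ∑ d ∈ Nat.finMulAntidiag k n, ∏ j, (d j : ℂ) ^ (l j)

/-- The Euler factor of `F(s; a, b)` at the prime `p`. -/
def localFactor (s : ℂ) (a b : Fin k → ℝ) (p : ℕ) : ℂ :=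
  (∏ j, ∏ l, (1 - (p : ℂ) ^ (-(2 * s + I * a j - I * b l)))) *
    ∑' m : ℕ, tau (fun j => I * b j) (p ^ m) * tau (fun j => -(I * a j)) (p ^ m) *
      (p : ℂ) ^ (-(2 * m * s))

/-- The arithmetic factor `F(s; a, b)`, an Euler product. -/
def arithF (s : ℂ) (a b : Fin k → ℝ) : ℂ := ∏' p : Nat.Primes, localFactor s a b p

/-- `ζ_{(a, b)}(s)`, through `F(s; a, b)` and the product of `k ^ 2` zeta functions. -/
def zetaAB (s : ℂ) (a b : Fin k → ℝ) : ℂ :=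
  arithF s a b * ∏ j, ∏ l, riemannZeta (2 * s + I * a j - I * b l)

/-- The factor `χ` of the functional equation `ζ(s) = χ(s) ζ(1 - s)`. -/
def chi (s : ℂ) : ℂ := (Real.pi : ℂ) ^ (s - 1 / 2) * Gamma ((1 - s) / 2) / Gamma (s / 2)

/-- `Z_{α, β}(t)`, where `γ = (α, β)` is indexed by `Fin k ⊕ Fin k`. -/
def Z (γ : Fin k ⊕ Fin k → ℝ) (t : ℝ) : ℂ :=
  ∏ j : Fin k, riemannZeta (1 / 2 + I * (t + γ (Sum.inl j))) *
    riemannZeta (1 / 2 - I * (t + γ (Sum.inr j)))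

/-- `G_γ(π)`, where `π(γ)` has the coordinates `γ (π i)`. -/
def G (γ : Fin k ⊕ Fin k → ℝ) (t : ℝ) (π : Equiv.Perm (Fin k ⊕ Fin k)) : ℂ :=
  (∏ j : Fin k, if (π (Sum.inl j)).isRight then chi (1 / 2 - I * t - I * γ (π (Sum.inl j))) else 1) *
  ∏ j : Fin k, if (π (Sum.inr j)).isLeft then chi (1 / 2 + I * t + I * γ (π (Sum.inr j))) else 1

/-- `Q_k(t; α, β)`: the summand depends only on the class of `π` in `S_{2k} / (S_k × S_k)`, so the
sum over the classes is the sum over all `π`, divided by `(k!) ^ 2`. -/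
def Q (γ : Fin k ⊕ Fin k → ℝ) (t : ℝ) : ℂ :=
  ((Nat.factorial k : ℂ) ^ 2)⁻¹ * ∑ π : Equiv.Perm (Fin k ⊕ Fin k),
    G γ t π * zetaAB (1 / 2) (fun j => γ (π (Sum.inl j))) (fun j => γ (π (Sum.inr j)))

open Pool.Agent.TH612.CF in
lemma zetaAB_eq (a b : Fin k → ℝ) :
    zetaAB (1 / 2) a b = zab (fun j => (a j : ℂ)) (fun j => (b j : ℂ)) := by
  unfold zetaAB zab arithF FH
  congr 1
  · refine tprod_congr fun p => ?_
    unfold localFactor lh lt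
    congr 1
    · refine Finset.prod_congr rfl fun j _ => Finset.prod_congr rfl fun l _ => ?_
      congr 2
      ring
    · refine tsum_congr fun m => ?_
      have hp : ((p : ℕ) : ℂ) ≠ 0 := by exact_mod_cast p.2.ne_zero
      have e : ((p : ℕ) : ℂ) ^ (-(2 * (m : ℂ) * (1 / 2))) = (((p : ℕ) : ℂ) ^ m)⁻¹ := by
        rw [← Complex.cpow_natCast, ← Complex.cpow_neg]
        congr 1; ring
      rw [e]
      rfl
  · refine Finset.prod_congr rfl fun j _ => Finset.prod_congr rfl fun l _ => ?_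
    congr 1
    ring

open Pool.Agent.TH612.CF in
lemma Q_eq (γ : Fin k ⊕ Fin k → ℝ) (t : ℝ) :
    Q γ t = ((Nat.factorial k : ℂ) ^ 2)⁻¹ * Qs t (fun i => (γ i : ℂ)) := by
  unfold Q Qs Rt
  congr 1
  refine Finset.sum_congr rfl fun π _ => ?_
  rw [zetaAB_eq]
  rfl

/-- For every `k ≥ 1` and every `ε > 0` there are `δ > 0` and `T₀` such that for all `T ≥ T₀` and
`T ^ (1/3) ≤ U ≤ T` there is a set `E` of at most `U ^ (2k) T ^ (-δ)` integer points such that every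
`γ = (α, β)` in the cube `[0, U] ^ (2k)` which is not in one of the unit cubes with lowest corner in `E`
has coordinates at distance at least `4` from each other and satisfies
`|∫_0^S (Z_{α, β}(t) - Q_k(t; α, β)) dt| ≤ T ^ (1 + ε) U ^ (-1/2)` for all `0 ≤ S ≤ T`. In particular,
for all `γ` in `[0, T] ^ (2k)` outside at most `T ^ (2k - δ)` unit cubes,
`|∫_0^S (Z_{α, β}(t) - Q_k(t; α, β)) dt| ≤ T ^ (1/2 + ε)` for all `0 ≤ S ≤ T`. -/
theorem result (k : ℕ) (hk : 1 ≤ k) (ε : ℝ) (hε : 0 < ε) :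
    (∀ γ : Fin k ⊕ Fin k → ℝ, Continuous fun t : ℝ => Z γ t - Q γ t) ∧
    ∃ δ : ℝ, 0 < δ ∧ ∃ T₀ : ℝ, ∀ T : ℝ, T₀ ≤ T →
      (∀ U : ℝ, T ^ (1 / 3 : ℝ) ≤ U → U ≤ T →
        ∃ E : Finset (Fin k ⊕ Fin k → ℤ), (E.card : ℝ) ≤ U ^ (2 * k) * T ^ (-δ) ∧
          ∀ γ : Fin k ⊕ Fin k → ℝ, (∀ i, 0 ≤ γ i ∧ γ i ≤ U) → (fun i => ⌊γ i⌋) ∉ E →
            (∀ i j, i ≠ j → 4 ≤ |γ i - γ j|) ∧
            ∀ S : ℝ, 0 ≤ S → S ≤ T →
              ‖∫ t in (0:ℝ)..S, (Z γ t - Q γ t)‖ ≤ T ^ (1 + ε) * U ^ (-(1 / 2) : ℝ)) ∧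
      ∃ E : Finset (Fin k ⊕ Fin k → ℤ), (E.card : ℝ) ≤ T ^ (2 * k - δ : ℝ) ∧
        ∀ γ : Fin k ⊕ Fin k → ℝ, (∀ i, 0 ≤ γ i ∧ γ i ≤ T) → (fun i => ⌊γ i⌋) ∉ E →
          (∀ i j, i ≠ j → 4 ≤ |γ i - γ j|) ∧
          ∀ S : ℝ, 0 ≤ S → S ≤ T → ‖∫ t in (0:ℝ)..S, (Z γ t - Q γ t)‖ ≤ T ^ (1 / 2 + ε) := by
  constructor
  · intro γ
    have h := (Pool.Agent.TH612.GS.Zg_cont γ).sub
      ((continuous_const (y := ((Nat.factorial k : ℂ) ^ 2)⁻¹)).mul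
        (Pool.Agent.TH612.GS.Qs_cont γ))
    refine h.congr fun t => ?_
    rw [Q_eq]
    rfl
  · obtain ⟨δ, T₀, hδ, h⟩ := Pool.Agent.Z72.SQ.final k ε hk hε
    have main : ∀ T : ℝ, T₀ ≤ T → ∀ U : ℝ, T ^ (1 / 3 : ℝ) ≤ U → U ≤ T →
        ∃ E : Finset (Fin k ⊕ Fin k → ℤ), (E.card : ℝ) ≤ U ^ (2 * k) * T ^ (-δ) ∧
          ∀ γ : Fin k ⊕ Fin k → ℝ, (∀ i, 0 ≤ γ i ∧ γ i ≤ U) → (fun i => ⌊γ i⌋) ∉ E →
            (∀ i j, i ≠ j → 4 ≤ |γ i - γ j|) ∧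
            ∀ S : ℝ, 0 ≤ S → S ≤ T →
              ‖∫ t in (0:ℝ)..S, (Z γ t - Q γ t)‖ ≤ T ^ (1 + ε) * U ^ (-(1 / 2) : ℝ) := by
      intro T hT U hTU hUT
      obtain ⟨E, hE, h2⟩ := h T U hT hTU hUT
      refine ⟨E, hE, fun γ hγ hγE => ?_⟩
      obtain ⟨h3, h4⟩ := h2 γ hγ hγE
      refine ⟨h3, fun S hS hST => ?_⟩
      have h5 := h4 S hS hST
      unfold Pool.Agent.TH612.GS.DD at h5
      simp only [Q_eq]
      exact h5
    refine ⟨δ, hδ, max T₀ 1, fun T hT => ⟨main T ((le_max_left _ _).trans hT), ?_⟩⟩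
    have hT1 : 1 ≤ T := (le_max_right _ _).trans hT
    have hT0 : 0 < T := by linarith
    have hT3 : T ^ (1 / 3 : ℝ) ≤ T := by
      calc T ^ (1 / 3 : ℝ) ≤ T ^ (1 : ℝ) := Real.rpow_le_rpow_of_exponent_le hT1 (by norm_num)
        _ = T := Real.rpow_one T
    obtain ⟨E, hE, h2⟩ := main T ((le_max_left _ _).trans hT) T hT3 le_rfl
    have e1 : T ^ (2 * k) * T ^ (-δ) = T ^ (2 * k - δ : ℝ) := by
      rw [sub_eq_add_neg, Real.rpow_add hT0]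
      congr 1
      rw [← Real.rpow_natCast]; push_cast; rfl
    have e2 : T ^ (1 + ε) * T ^ (-(1 / 2) : ℝ) = T ^ (1 / 2 + ε) := by
      rw [← Real.rpow_add hT0]; congr 1; ring
    rw [e1] at hE
    rw [e2] at h2
    exact ⟨E, hE, h2⟩

end

end Pool.Agent.Results.MP_fa2474_nt.SquareRootRemainder
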